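import Mathlib
import Pool.Agent.Q106.TreeLemmas

/-!
# MP_75fda7_co, Q1: exponential domination of bounded degree trees

The statement `γ_e(T) = Ω(n / log n)` for trees of bounded maximum degree is false for `Δ = 6`:
complete 5-ary trees have exponential domination number at most `n ^ (log 4 / log 5)`.
-/

set_option autoImplicit false

namespace Pool.Agent.Results.MP_75fda7_co.BoundedDegreeTrees

open Filter Asymptotics

variable {V : Type*}

/-- The lengths of the paths of `G` from `u` to `v` such that exactly one endvertex lies in `S` and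
no internal vertex lies in `S`. -/
def admissible (G : SimpleGraph V) (S : Finset V) (u v : V) : Set ℕ :=
  {n | ∃ p : G.Walk u v, p.IsPath ∧ p.length = n ∧ (({u, v} : Set V) ∩ (S : Set V)).ncard = 1 ∧
    ∀ x ∈ p.support, x ≠ u → x ≠ v → x ∉ S}

open Classical in
/-- `(1/2) ^ (dist_(G,S)(u,v) - 1)`, which is `0` if the distance is infinite. -/
noncomputable def contribution (G : SimpleGraph V) (S : Finset V) (u v : V) : ℝ :=
  if (admissible G S u v).Nonempty then
    (1 / 2 : ℝ) ^ (((sInf (admissible G S u v) : ℕ) : ℤ) - 1) else 0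

/-- The weight `w_(G,S)(u)`. -/
noncomputable def weight (G : SimpleGraph V) (S : Finset V) (u : V) : ℝ :=
  ∑ v ∈ S, contribution G S u v

/-- `S` is an exponential dominating set of `G`. -/
def IsExpDominating (G : SimpleGraph V) (S : Finset V) : Prop :=
  ∀ u : V, 1 ≤ weight G S u

/-- The exponential domination number. -/
noncomputable def gammaE (G : SimpleGraph V) : ℕ :=
  sInf {k | ∃ S : Finset V, IsExpDominating G S ∧ S.card = k}

/-- The statement asked about: for every `Δ` there is `c > 0` such that every tree on `n ≥ 2`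
vertices of maximum degree at most `Δ` satisfies `γ_e ≥ c n / log n`. -/
def Conjecture : Prop :=
  ∀ Δ : ℕ, ∃ c : ℝ, 0 < c ∧ ∀ (V : Type) [Fintype V] (T : SimpleGraph V), T.IsTree →
    (∀ v, (T.neighborSet v).ncard ≤ Δ) → 2 ≤ Fintype.card V →
      c * (Fintype.card V / Real.log (Fintype.card V)) ≤ (gammaE T : ℝ)

/-! ### The complete 5-ary tree of height `H` -/

/-- Vertices of the complete `5`-ary tree. -/
abbrev Vt (H : ℕ) : Type := {l : List (Fin 5) // l.length ≤ H}

/-- The parent. -/
def par {H : ℕ} (u : Vt H) : Vt H := ⟨u.1.tail, by have := u.2; simp; omega⟩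

/-- The complete `5`-ary tree of height `H`. -/
def tree (H : ℕ) : SimpleGraph (Vt H) where
  Adj u v := (∃ a, v.1 = a :: u.1) ∨ (∃ a, u.1 = a :: v.1)
  symm := ⟨fun u v h => h.symm⟩
  loopless := ⟨by
    rintro u (⟨a, h⟩ | ⟨a, h⟩)
    · have := congrArg List.length h
      simp at this
    · have := congrArg List.length h
      simp at this⟩

noncomputable instance (H : ℕ) : Fintype (Vt H) :=
  (List.finite_length_le (Fin 5) H).fintype

theorem tree_adj {H : ℕ} (u v : Vt H) (h : (tree H).Adj u v) :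
    (par u = v ∧ v.1.length < u.1.length) ∨ (par v = u ∧ u.1.length < v.1.length) := by
  rcases h with ⟨a, h⟩ | ⟨a, h⟩
  · right
    refine ⟨Subtype.ext ?_, ?_⟩
    · simp [par, h]
    · simp [h]
  · left
    refine ⟨Subtype.ext ?_, ?_⟩
    · simp [par, h]
    · simp [h]

/-- The root. -/
def root (H : ℕ) : Vt H := ⟨[], by simp⟩

theorem walk_root {H : ℕ} (l : List (Fin 5)) (hl : l.length ≤ H) :
    ∃ p : (tree H).Walk (root H) ⟨l, hl⟩, p.length = l.length := by
  induction l with
  | nil => exact ⟨SimpleGraph.Walk.nil, rfl⟩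
  | cons a l ih =>
    have hl' : l.length ≤ H := by simp at hl; omega
    obtain ⟨p, hp⟩ := ih hl'
    have hadj : (tree H).Adj ⟨l, hl'⟩ ⟨a :: l, hl⟩ := Or.inl ⟨a, rfl⟩
    refine ⟨p.concat hadj, ?_⟩
    simp [hp]

theorem tree_isTree (H : ℕ) : (tree H).IsTree := by
  refine ⟨?_, Q106.TreeLemmas.isAcyclic_of_parent (tree H) (fun u => u.1.length) par
    (fun u v h => tree_adj u v h)⟩
  have : Nonempty (Vt H) := ⟨root H⟩
  refine SimpleGraph.Connected.mk ?_
  intro u v
  obtain ⟨p, _⟩ := walk_root u.1 u.2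
  obtain ⟨q, _⟩ := walk_root v.1 v.2
  exact ⟨p.reverse.append q⟩

theorem short_path {H : ℕ} (u v : Vt H) :
    ∃ p : (tree H).Walk u v, p.IsPath ∧ p.length ≤ 2 * H := by
  obtain ⟨p, hp⟩ := walk_root u.1 u.2
  obtain ⟨q, hq⟩ := walk_root v.1 v.2
  refine ⟨(p.reverse.append q).bypass, SimpleGraph.Walk.bypass_isPath _, ?_⟩
  refine (SimpleGraph.Walk.length_bypass_le_length _).trans ?_
  rw [SimpleGraph.Walk.length_append, SimpleGraph.Walk.length_reverse, hp, hq]
  have h1 := u.2
  have h2 := v.2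
  omega

theorem degree_le {H : ℕ} (u : Vt H) : ((tree H).neighborSet u).ncard ≤ 6 := by
  classical
  have hsub : (tree H).neighborSet u ⊆
      insert (par u) (⋃ a : Fin 5, {v : Vt H | v.1 = a :: u.1}) := by
    intro v hv
    rcases hv with ⟨a, h⟩ | ⟨a, h⟩
    · right
      exact Set.mem_iUnion.mpr ⟨a, h⟩
    · left
      exact Subtype.ext (by simp [par, h])
  have hfin : (⋃ a : Fin 5, {v : Vt H | v.1 = a :: u.1}).Finite := Set.toFinite _
  refine (Set.ncard_le_ncard hsub (Set.toFinite _)).trans ?_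
  refine (Set.ncard_insert_le _ _).trans ?_
  have h1 : (⋃ a : Fin 5, {v : Vt H | v.1 = a :: u.1}).ncard ≤ (Set.univ : Set (Fin 5)).ncard := by
    refine Set.ncard_le_ncard_of_injOn (fun v => v.1.headD 0) (fun _ _ => Set.mem_univ _) ?_
      (Set.toFinite _)
    intro v hv w hw hvw
    obtain ⟨a, ha⟩ := Set.mem_iUnion.mp hv
    obtain ⟨b, hb⟩ := Set.mem_iUnion.mp hw
    have ha' : v.1 = a :: u.1 := ha
    have hb' : w.1 = b :: u.1 := hb
    apply Subtype.ext
    rw [ha', hb']
    simp only [ha', hb', List.headD_cons] at hvw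
    rw [hvw]
  have h2 : (Set.univ : Set (Fin 5)).ncard = 5 := by
    rw [Set.ncard_univ, Nat.card_eq_fintype_card, Fintype.card_fin]
  omega

/-- Leaves (vertices of full length) have only one neighbour. -/
theorem leaf_nbr {H : ℕ} (u : Vt H) (hu : u.1.length = H) (v : Vt H) (h : (tree H).Adj u v) :
    v = par u := by
  rcases tree_adj u v h with h1 | h1
  · exact h1.1.symm
  · have := v.2
    omega

/-- Turning a vector into a leaf. -/
def toLeaf {H : ℕ} (x : List.Vector (Fin 5) H) : Vt H := ⟨x.1, x.2.le⟩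

theorem toLeaf_injective {H : ℕ} : Function.Injective (toLeaf (H := H)) := by
  intro x y hxy
  have h : (toLeaf x).1 = (toLeaf y).1 := by rw [hxy]
  exact Subtype.ext h

theorem card_ge (H : ℕ) : 5 ^ H ≤ Fintype.card (Vt H) := by
  have := Fintype.card_le_of_injective _ (toLeaf_injective (H := H))
  rwa [card_vector, Fintype.card_fin] at this

/-- There is a set of `2 ^ (2H-1)` leaves. -/
theorem exists_leaves {H : ℕ} (hH : 1 ≤ H) :
    ∃ S : Finset (Vt H), S.card = 2 ^ (2 * H - 1) ∧ ∀ v ∈ S, v.1.length = H := by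
  classical
  have hcard : 2 ^ (2 * H - 1) ≤ (Finset.univ.image (toLeaf (H := H))).card := by
    rw [Finset.card_image_of_injective _ toLeaf_injective, Finset.card_univ, card_vector,
      Fintype.card_fin]
    calc 2 ^ (2 * H - 1) ≤ 2 ^ (2 * H) := Nat.pow_le_pow_right (by norm_num) (by omega)
      _ = 4 ^ H := by rw [pow_mul]; norm_num
      _ ≤ 5 ^ H := Nat.pow_le_pow_left (by norm_num) H
  obtain ⟨S, hS, hSc⟩ := Finset.exists_subset_card_eq hcard
  refine ⟨S, hSc, ?_⟩
  intro v hv
  obtain ⟨x, _, hx⟩ := Finset.mem_image.mp (hS hv)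
  rw [← hx]
  exact x.2

theorem admissible_of_leaves {H : ℕ} (S : Finset (Vt H)) (hS : ∀ v ∈ S, v.1.length = H)
    (u v : Vt H) (hv : v ∈ S) (hu : u ∉ S) :
    ∃ n ∈ admissible (tree H) S u v, n ≤ 2 * H := by
  obtain ⟨p, hp, hlen⟩ := short_path u v
  refine ⟨p.length, ⟨p, hp, rfl, ?_, ?_⟩, hlen⟩
  · have : (({u, v} : Set (Vt H)) ∩ (S : Set (Vt H))) = {v} := by
      ext x
      simp only [Set.mem_inter_iff, Set.mem_insert_iff, Set.mem_singleton_iff, Finset.mem_coe]
      constructor
      · rintro ⟨rfl | rfl, hx⟩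
        · exact absurd hx hu
        · rfl
      · rintro rfl
        exact ⟨Or.inr rfl, hv⟩
    rw [this, Set.ncard_singleton]
  · intro x hx hxu hxv hxS
    obtain ⟨y, z, hyz, hy, hz⟩ := Q106.TreeLemmas.two_nbrs_of_internal p hp hx hxu hxv
    exact hyz ((leaf_nbr x (hS x hxS) y hy).trans (leaf_nbr x (hS x hxS) z hz).symm)

theorem contribution_nonneg (G : SimpleGraph V) (S : Finset V) (u v : V) :
    0 ≤ contribution G S u v := by
  unfold contribution
  split_ifs
  · positivity
  · exact le_refl _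

theorem isExpDominating_of_leaves {H : ℕ} (hH : 1 ≤ H) (S : Finset (Vt H))
    (hS : ∀ v ∈ S, v.1.length = H) (hcard : S.card = 2 ^ (2 * H - 1)) :
    IsExpDominating (tree H) S := by
  intro u
  unfold weight
  by_cases hu : u ∈ S
  · have h0 : (0 : ℕ) ∈ admissible (tree H) S u u := by
      refine ⟨SimpleGraph.Walk.nil, SimpleGraph.Walk.IsPath.nil, rfl, ?_, ?_⟩
      · have : (({u, u} : Set (Vt H)) ∩ (S : Set (Vt H))) = {u} := by
          ext x
          simp only [Set.mem_inter_iff, Set.mem_insert_iff, Set.mem_singleton_iff, Finset.mem_coe,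
            or_self]
          constructor
          · exact fun h => h.1
          · rintro rfl
            exact ⟨rfl, hu⟩
        rw [this, Set.ncard_singleton]
      · intro x hx hxu
        simp at hx
        exact absurd hx hxu
    have h1 : contribution (tree H) S u u = 2 := by
      unfold contribution
      rw [if_pos ⟨0, h0⟩]
      have : sInf (admissible (tree H) S u u) = 0 := Nat.sInf_eq_zero.mpr (Or.inl h0)
      rw [this]
      norm_num
    have h2 := Finset.single_le_sum (f := fun v => contribution (tree H) S u v)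
      (fun v _ => contribution_nonneg (tree H) S u v) hu
    simp only [h1] at h2
    linarith
  · have h1 : ∀ v ∈ S, (1 / 2 : ℝ) ^ (2 * H - 1) ≤ contribution (tree H) S u v := by
      intro v hv
      obtain ⟨n, hn, hnH⟩ := admissible_of_leaves S hS u v hv hu
      unfold contribution
      rw [if_pos ⟨n, hn⟩]
      have hle : sInf (admissible (tree H) S u v) ≤ 2 * H := (Nat.sInf_le hn).trans hnH
      have h2 : (1 / 2 : ℝ) ^ (2 * H - 1) = (1 / 2 : ℝ) ^ ((2 * H : ℤ) - 1) := by
        rw [← zpow_natCast]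
        congr 1
        omega
      rw [h2]
      apply zpow_le_zpow_right_of_le_one₀ (by norm_num) (by norm_num)
      omega
    have h2 : ∑ v ∈ S, (1 / 2 : ℝ) ^ (2 * H - 1) ≤ ∑ v ∈ S, contribution (tree H) S u v :=
      Finset.sum_le_sum h1
    rw [Finset.sum_const, hcard] at h2
    have h3 : (2 ^ (2 * H - 1) : ℕ) • (1 / 2 : ℝ) ^ (2 * H - 1) = 1 := by
      rw [nsmul_eq_mul]
      push_cast
      rw [← mul_pow]
      norm_num
    rw [h3] at h2
    exact h2

theorem gammaE_le {H : ℕ} (hH : 1 ≤ H) : gammaE (tree H) ≤ 2 ^ (2 * H - 1) := by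
  obtain ⟨S, hcard, hS⟩ := exists_leaves hH
  exact Nat.sInf_le ⟨S, isExpDominating_of_leaves hH S hS hcard, hcard⟩

theorem log_ratio_lt : Real.log 4 / Real.log 5 < 1 := by
  rw [div_lt_one (Real.log_pos (by norm_num))]
  exact Real.log_lt_log (by norm_num) (by norm_num)

theorem gammaE_le_rpow {H : ℕ} (hH : 1 ≤ H) :
    (gammaE (tree H) : ℝ) ≤ (Fintype.card (Vt H) : ℝ) ^ (Real.log 4 / Real.log 5) := by
  have h1 : (gammaE (tree H) : ℝ) ≤ (4 : ℝ) ^ H := by
    have h := gammaE_le hH
    have h' : (2 : ℕ) ^ (2 * H - 1) ≤ 4 ^ H := by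
      calc 2 ^ (2 * H - 1) ≤ 2 ^ (2 * H) := Nat.pow_le_pow_right (by norm_num) (by omega)
        _ = 4 ^ H := by rw [pow_mul]; norm_num
    exact_mod_cast h.trans h'
  have h2 : (4 : ℝ) ^ H = ((5 : ℝ) ^ H) ^ (Real.log 4 / Real.log 5) := by
    have h5 : Real.log 5 ≠ 0 := (Real.log_pos (by norm_num)).ne'
    rw [Real.rpow_def_of_pos (by positivity), Real.log_pow]
    have : (H : ℝ) * Real.log 5 * (Real.log 4 / Real.log 5) = H * Real.log 4 := by
      field_simp
    rw [this, mul_comm, Real.exp_mul, Real.exp_log (by norm_num), Real.rpow_natCast]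
  rw [h2] at h1
  refine h1.trans ?_
  apply Real.rpow_le_rpow (by positivity)
  · exact_mod_cast card_ge H
  · exact div_nonneg (Real.log_nonneg (by norm_num)) (Real.log_nonneg (by norm_num))

theorem not_conjecture : ¬ Conjecture := by
  intro hC
  obtain ⟨c, hc, h⟩ := hC 6
  set θ : ℝ := Real.log 4 / Real.log 5 with hθ
  have hθ1 : 0 < 1 - θ := by have := log_ratio_lt; linarith
  have hlo := isLittleO_log_rpow_atTop hθ1
  have hev := hlo.def (c := c / 2) (by positivity)
  obtain ⟨X, hX⟩ := Filter.eventually_atTop.mp hev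
  obtain ⟨H0, hH0⟩ := exists_nat_ge (max X 2)
  set H : ℕ := H0 with hHdef
  have hH1 : 1 ≤ H := by
    have : (2 : ℝ) ≤ H := (le_max_right _ _).trans hH0
    have : (2 : ℕ) ≤ H := by exact_mod_cast this
    omega
  have hcard5 : (5 : ℕ) ^ H ≤ Fintype.card (Vt H) := card_ge H
  have hHlt : H < 5 ^ H := Nat.lt_pow_self (by norm_num)
  have hn2 : 2 ≤ Fintype.card (Vt H) := by
    have : (2 : ℝ) ≤ H := (le_max_right _ _).trans hH0
    have : (2 : ℕ) ≤ H := by exact_mod_cast this
    omega
  have hnX : X ≤ (Fintype.card (Vt H) : ℝ) := by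
    have h1 : X ≤ H := (le_max_left _ _).trans hH0
    have h2 : (H : ℝ) ≤ Fintype.card (Vt H) := by exact_mod_cast (hHlt.le.trans hcard5)
    linarith
  have hmain := h (Vt H) (tree H) (tree_isTree H) degree_le hn2
  have hup := gammaE_le_rpow hH1
  have hl := hX _ hnX
  set n : ℝ := (Fintype.card (Vt H) : ℝ) with hn
  have hn2' : (2 : ℝ) ≤ n := by rw [hn]; exact_mod_cast hn2
  have hnpos : 0 < n := by linarith
  have hlogpos : 0 < Real.log n := Real.log_pos (by linarith)
  rw [Real.norm_of_nonneg hlogpos.le, Real.norm_of_nonneg (by positivity)] at hl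
  have h3 : c * (n / Real.log n) ≤ n ^ θ := hmain.trans hup
  have h4 : c * n ≤ n ^ θ * Real.log n := by
    rw [← mul_div_assoc, div_le_iff₀ hlogpos] at h3
    exact h3
  have h5 : n ^ θ * Real.log n ≤ n ^ θ * (c / 2 * n ^ (1 - θ)) :=
    mul_le_mul_of_nonneg_left hl (by positivity)
  have h6 : n ^ θ * n ^ (1 - θ) = n := by
    rw [← Real.rpow_add hnpos]
    simp
  have h7 : n ^ θ * (c / 2 * n ^ (1 - θ)) = c / 2 * n := by
    calc n ^ θ * (c / 2 * n ^ (1 - θ)) = c / 2 * (n ^ θ * n ^ (1 - θ)) := by ring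
      _ = c / 2 * n := by rw [h6]
  have h8 : c * n ≤ c / 2 * n := by
    calc c * n ≤ n ^ θ * Real.log n := h4
      _ ≤ n ^ θ * (c / 2 * n ^ (1 - θ)) := h5
      _ = c / 2 * n := h7
  have h9 : 0 < c * n := by positivity
  linarith

/-- **Main result.** There are arbitrarily large trees of maximum degree at most `6` whose
exponential domination number is at most `n ^ (log 4 / log 5)`, where `log 4 / log 5 < 1`; in
particular the conjectured bound `γ_e(T) = Ω(n / log n)` for bounded-degree trees is false. -/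
theorem result :
    (Real.log 4 / Real.log 5 < 1 ∧
      ∀ N : ℕ, ∃ (V : Type) (_ : Fintype V) (T : SimpleGraph V), T.IsTree ∧
        (∀ v, (T.neighborSet v).ncard ≤ 6) ∧ N ≤ Fintype.card V ∧
        (gammaE T : ℝ) ≤ (Fintype.card V : ℝ) ^ (Real.log 4 / Real.log 5)) ∧
    ¬ Conjecture := by
  refine ⟨⟨log_ratio_lt, ?_⟩, not_conjecture⟩
  intro N
  refine ⟨Vt (N + 1), inferInstance, tree (N + 1), tree_isTree _, degree_le, ?_,
    gammaE_le_rpow (by omega)⟩
  have h1 : N + 1 < 5 ^ (N + 1) := Nat.lt_pow_self (by norm_num)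
  have h2 := card_ge (N + 1)
  omega

end Pool.Agent.Results.MP_75fda7_co.BoundedDegreeTrees
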